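import Pool.Agent.Helper44.Sub.Main2
import Pool.Agent.Helper44.Sub.S2

set_option autoImplicit false

namespace Pool.Agent.Results.MP_bdf835_lc.ExtensionGroups


/-- Finite asymptotic dimension of a group `Q`: there is a number `D` such that for every finite
`R` the group can be coloured with `D` colours so that the endpoints of every monochromatic chain
with steps in `R` differ by an element of one finite set `B`. -/
def FinAsdim (Q : Type) [Group Q] : Prop :=
  ∃ D : ℕ, ∀ R : Finset Q, ∃ (B : Finset Q) (c : Q → Fin D), ∀ (n : ℕ) (p : ℕ → Q),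
    (∀ i < n, (p i)⁻¹ * p (i + 1) ∈ R ∧ c (p (i + 1)) = c (p i)) → (p 0)⁻¹ * p n ∈ B

/-- Generic hyperfiniteness for countable groups which have finite asymptotic dimension modulo a
normal subgroup `N₁` that is built from two layers of locally finite asymptotic dimension. -/
theorem result (G : Type) [Group G] [Countable G]
    (N₁ N₂ : Subgroup G) [N₁.Normal] [N₂.Normal] (htop : FinAsdim (G ⧸ N₁))
    (hmid : ∀ M : Subgroup G, M ≤ N₁ → M.FG → FinAsdim ↥(M.map (QuotientGroup.mk' N₂)))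
    (hbot : ∀ M : Subgroup G, M ≤ N₂ → M.FG → FinAsdim ↥M) :
    {K : {K : Set (G → ℕ → unitInterval) //
          K.Nonempty ∧ IsClosed K ∧ ∀ g : G, ∀ x ∈ K, (fun h => x (g⁻¹ * h)) ∈ K} |
        ∃ F : ℕ → Set (↥K.1 × ↥K.1),
          (∀ n, @MeasurableSet (↥K.1 × ↥K.1) (borel (↥K.1 × ↥K.1)) (F n)) ∧
          (∀ n x, (x, x) ∈ F n) ∧
          (∀ n x y, (x, y) ∈ F n → (y, x) ∈ F n) ∧
          (∀ n x y z, (x, y) ∈ F n → (y, z) ∈ F n → (x, z) ∈ F n) ∧
          (∀ n x, {y | (x, y) ∈ F n}.Finite) ∧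
          (∀ n, F n ⊆ F (n + 1)) ∧
          ∀ x y : ↥K.1, (∃ n, (x, y) ∈ F n) ↔ ∃ g : G, y.1 = fun h => x.1 (g⁻¹ * h)}
      ∈ @residual
          {K : Set (G → ℕ → unitInterval) //
            K.Nonempty ∧ IsClosed K ∧ ∀ g : G, ∀ x ∈ K, (fun h => x (g⁻¹ * h)) ∈ K}
          (TopologicalSpace.induced Subtype.val
            (TopologicalSpace.generateFrom
              ({S : Set (Set (G → ℕ → unitInterval)) |
                  ∃ U : Set (G → ℕ → unitInterval), IsOpen U ∧ S = {K | K ⊆ U}} ∪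
               {S : Set (Set (G → ℕ → unitInterval)) |
                  ∃ U : Set (G → ℕ → unitInterval), IsOpen U ∧ S = {K | (K ∩ U).Nonempty}}))) :=
  Pool.Agent.Helper44.Sub.generic_Ta
    (fun _ _ _ _ _ _ N _ J δ h1 h2 h3 h4 h5 h6 =>
      Pool.Agent.Helper44.Sub.engineN N J δ h1 h2 h3 h4 h5 h6)
    G N₁ N₂ htop hmid hbot

end Pool.Agent.Results.MP_bdf835_lc.ExtensionGroups
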