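import Pool.Agent.Helper6.GH.Final

set_option autoImplicit false

namespace Pool.Agent.Results.MP_bdf835_lc.Permanence

/-- Finite asymptotic dimension of a group `Q`: there is a number `D` such that for every finite
`R` the group can be coloured with `D` colours so that the endpoints of every monochromatic chain
with steps in `R` differ by an element of one finite set `B`. -/
def FinAsdim (Q : Type) [Group Q] : Prop :=
  ∃ D : ℕ, ∀ R : Finset Q, ∃ (B : Finset Q) (c : Q → Fin D), ∀ (n : ℕ) (p : ℕ → Q),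
    (∀ i < n, (p i)⁻¹ * p (i + 1) ∈ R ∧ c (p (i + 1)) = c (p i)) → (p 0)⁻¹ * p n ∈ B

/-- The smallest class of groups which contains the finitely generated residually finite soluble
groups and is closed under isomorphisms, free products of countable families, finitely generated
overgroups of finite index, and the following extensions: `G` is countable, `N₁, …, N_k` are
finitely generated normal subgroups (`k = 0` is allowed) with quotients in the class, and the
intersection of the `N_j` (the whole group if `k = 0`) is built from two layers of locally finite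
asymptotic dimension. -/
inductive Cls : (G : Type) → Group G → Prop
  | solRF (G : Type) [i : Group G] (hfg : Group.FG G) (hsol : Group.IsSolvable G)
      (hRF : ∀ g : G, g ≠ 1 → ∃ K : Subgroup G, K.Normal ∧ K.FiniteIndex ∧ g ∉ K) : Cls G i
  | iso (G G' : Type) [i : Group G] [i' : Group G'] (e : G ≃* G') (h : Cls G i) : Cls G' i'
  | free (ι : Type) [Countable ι] (H : ι → Type) [i : ∀ j, Group (H j)]
      (h : ∀ j, Cls (H j) (i j)) : Cls (Monoid.CoprodI H) inferInstance
  | index (G : Type) [i : Group G] (hfg : Group.FG G) (K : Subgroup G) [K.FiniteIndex]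
      (h : Cls ↥K inferInstance) : Cls G i
  | ext (G : Type) [i : Group G] [Countable G] (k : ℕ) (N : Fin k → Subgroup G)
      [∀ j, (N j).Normal] (hfg : ∀ j, (N j).FG) (h : ∀ j, Cls (G ⧸ N j) inferInstance)
      (P : Subgroup G) [P.Normal] (hP : P ≤ ⨅ j, N j)
      (hmid : ∀ M : Subgroup G, M ≤ ⨅ j, N j → M.FG → FinAsdim ↥(M.map (QuotientGroup.mk' P)))
      (hbot : ∀ M : Subgroup G, M ≤ P → M.FG → FinAsdim ↥M) : Cls G i

theorem rh_of_cls {G : Type} {i : Group G} (h : Cls G i) :
    Countable G ∧ Pool.Agent.Helper6.GH.RH G := by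
  induction h with
  | solRF G hfg hsol hRF =>
    exact ⟨Pool.Agent.Helper6.GH.countable_of_fg G hfg,
      Pool.Agent.Helper6.GH.RH_solRF G hfg hsol hRF⟩
  | iso G G' e _ ih =>
    obtain ⟨h1, h2⟩ := ih
    exact ⟨e.toEquiv.symm.injective.countable, Pool.Agent.Helper6.GH.RH_iso e h2⟩
  | free ι H _ ih =>
    have h1 : ∀ j, Countable (H j) := fun j => (ih j).1
    exact ⟨Pool.Agent.Helper6.GH.countable_coprodI,
      Pool.Agent.Helper6.GH.RH_coprodI fun j => (ih j).2⟩
  | index G hfg K _ ih =>
    have h1 : Countable G := Pool.Agent.Helper6.GH.countable_of_fg G hfg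
    exact ⟨h1, Pool.Agent.Helper6.GH.RH_index hfg K ih.2⟩
  | ext G k N hfg _ P hP hmid hbot ih =>
    refine ⟨inferInstance, fun X _ A hr => ?_⟩
    have hn : (⨅ j, N j).Normal := Pool.Agent.Helper6.GH.normal_iInf N fun j => inferInstance
    refine Pool.Agent.Helper6.GH.HH_of_good hr (⨅ j, N j) P ?_ hP
      (fun M h1 h2 => Pool.Agent.Helper44.Sub.GAs_of_FinAsdim (hmid M h1 h2))
      (fun M h1 h2 => Pool.Agent.Helper44.Sub.GAs_of_FinAsdim (hbot M h1 h2))
    exact Pool.Agent.Helper6.GH.good_iInf k N (fun j => inferInstance) fun j =>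
      Pool.Agent.Helper6.GH.good_of_fg hr (N j) (hfg j) (ih j).2

/-- Generic hyperfiniteness for all groups of the class. -/
theorem result (G : Type) [i : Group G] (hG : Cls G i) :
    {K : {K : Set (G → ℕ → unitInterval) //
          K.Nonempty ∧ IsClosed K ∧ ∀ g : G, ∀ x ∈ K, (fun h => x (g⁻¹ * h)) ∈ K} |
        ∃ F : ℕ → Set (↥K.1 × ↥K.1),
          (∀ n, @MeasurableSet (↥K.1 × ↥K.1) (borel (↥K.1 × ↥K.1)) (F n)) ∧
          (∀ n x, (x, x) ∈ F n) ∧
          (∀ n x y, (x, y) ∈ F n → (y, x) ∈ F n) ∧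
          (∀ n x y z, (x, y) ∈ F n → (y, z) ∈ F n → (x, z) ∈ F n) ∧
          (∀ n x, {y | (x, y) ∈ F n}.Finite) ∧
          (∀ n, F n ⊆ F (n + 1)) ∧
          ∀ x y : ↥K.1, (∃ n, (x, y) ∈ F n) ↔ ∃ g : G, y.1 = fun h => x.1 (g⁻¹ * h)}
      ∈ @residual
          {K : Set (G → ℕ → unitInterval) //
            K.Nonempty ∧ IsClosed K ∧ ∀ g : G, ∀ x ∈ K, (fun h => x (g⁻¹ * h)) ∈ K}
          (TopologicalSpace.induced Subtype.val
            (TopologicalSpace.generateFrom
              ({S : Set (Set (G → ℕ → unitInterval)) |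
                  ∃ U : Set (G → ℕ → unitInterval), IsOpen U ∧ S = {K | K ⊆ U}} ∪
               {S : Set (Set (G → ℕ → unitInterval)) |
                  ∃ U : Set (G → ℕ → unitInterval), IsOpen U ∧ S = {K | (K ∩ U).Nonempty}}))) := by
  obtain ⟨h1, h2⟩ := rh_of_cls hG
  exact Pool.Agent.Helper44.Sub.generic_of_rich G h2

end Pool.Agent.Results.MP_bdf835_lc.Permanence
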