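import Pool.Agent.Helper44.Sub.Main2
import Pool.Agent.Helper44.Sub.S2

set_option autoImplicit false

namespace Pool.Agent.Results.MP_bdf835_lc.SolubleGroups

/-- Finite asymptotic dimension of a group `Q`: there is a number `D` such that for every finite
`R` the group can be coloured with `D` colours so that the endpoints of every monochromatic chain
with steps in `R` differ by an element of one finite set `B`. -/
def FinAsdim (Q : Type) [Group Q] : Prop :=
  ∃ D : ℕ, ∀ R : Finset Q, ∃ (B : Finset Q) (c : Q → Fin D), ∀ (n : ℕ) (p : ℕ → Q),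
    (∀ i < n, (p i)⁻¹ * p (i + 1) ∈ R ∧ c (p (i + 1)) = c (p i)) → (p 0)⁻¹ * p n ∈ B

/-- Generic hyperfiniteness for finitely generated groups with a residually finite soluble
quotient whose kernel `H` is built from two layers of locally finite asymptotic dimension (`H` may
be trivial). -/
theorem result (G : Type) [Group G] (hfg : Group.FG G) (H : Subgroup G) [H.Normal] (ℓ : ℕ)
    (hsol : derivedSeries G ℓ ≤ H)
    (hRF : ∀ g, g ∉ H → ∃ K : Subgroup G, K.Normal ∧ K.FiniteIndex ∧ H ≤ K ∧ g ∉ K)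
    (N : Subgroup G) [N.Normal] (hNH : N ≤ H)
    (hmid : ∀ M : Subgroup G, M ≤ H → M.FG → FinAsdim ↥(M.map (QuotientGroup.mk' N)))
    (hbot : ∀ M : Subgroup G, M ≤ N → M.FG → FinAsdim ↥M) :
    {K : {K : Set (G → ℕ → unitInterval) //
          K.Nonempty ∧ IsClosed K ∧ ∀ g : G, ∀ x ∈ K, (fun h => x (g⁻¹ * h)) ∈ K} |
        ∃ F : ℕ → Set (↥K.1 × ↥K.1),
          (∀ n, @MeasurableSet (↥K.1 × ↥K.1) (borel (↥K.1 × ↥K.1)) (F n)) ∧
          (∀ n x, (x, x) ∈ F n) ∧
          (∀ n x y, (x, y) ∈ F n → (y, x) ∈ F n) ∧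
          (∀ n x y z, (x, y) ∈ F n → (y, z) ∈ F n → (x, z) ∈ F n) ∧
          (∀ n x, {y | (x, y) ∈ F n}.Finite) ∧
          (∀ n, F n ⊆ F (n + 1)) ∧
          ∀ x y : ↥K.1, (∃ n, (x, y) ∈ F n) ↔ ∃ g : G, y.1 = fun h => x.1 (g⁻¹ * h)}
      ∈ @residual
          {K : Set (G → ℕ → unitInterval) //
            K.Nonempty ∧ IsClosed K ∧ ∀ g : G, ∀ x ∈ K, (fun h => x (g⁻¹ * h)) ∈ K}
          (TopologicalSpace.induced Subtype.val
            (TopologicalSpace.generateFrom
              ({S : Set (Set (G → ℕ → unitInterval)) |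
                  ∃ U : Set (G → ℕ → unitInterval), IsOpen U ∧ S = {K | K ⊆ U}} ∪
               {S : Set (Set (G → ℕ → unitInterval)) |
                  ∃ U : Set (G → ℕ → unitInterval), IsOpen U ∧ S = {K | (K ∩ U).Nonempty}}))) := by
  have : Countable G := by
    classical
    obtain ⟨S, hS⟩ := hfg.out
    have h1 : Function.Surjective (FreeGroup.lift (fun x : S => (x : G))) := by
      rw [← MonoidHom.range_eq_top, FreeGroup.range_lift_eq_closure]
      simpa using hS
    have h2 : Countable (FreeGroup S) :=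
      Function.Injective.countable (f := FreeGroup.toWord) FreeGroup.toWord_injective
    exact h1.countable
  exact Pool.Agent.Helper44.Sub.generic_soluble_rf
    (fun _ _ _ _ _ _ N _ J δ h1 h2 h3 h4 h5 h6 =>
      Pool.Agent.Helper44.Sub.engineN N J δ h1 h2 h3 h4 h5 h6)
    G hfg H ℓ hsol hRF N hNH hmid hbot

end Pool.Agent.Results.MP_bdf835_lc.SolubleGroups
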